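import Pool.Agent.Helper20.CDG.Graph

/-!
# The gadget
-/

set_option autoImplicit false
set_option linter.unusedSectionVars false

namespace CDep
open Finset MvPolynomial

section gadget

variable {Ω : Type} {I J Q Q' : Type} [Fintype I] [DecidableEq I] [Fintype J] [DecidableEq J] {u : ℕ}

/-- the star edge of a vertex -/
def st (ι : W I J Q Q' u ↪ Ω) (x : (I × (Q → Bool)) ⊕ (J × (Q' → Bool))) : Sym2 Ω :=
  s(ι (Sum.inr none), ι (Sum.inl x))

theorem st_inj (ι : W I J Q Q' u ↪ Ω) : Function.Injective (st ι) := by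
  intro x y h
  unfold st at h
  rcases Sym2.eq_iff.1 h with ⟨_, h2⟩ | ⟨h1, _⟩
  · exact Sum.inl.inj (ι.injective h2)
  · exact absurd (ι.injective h1) (by simp)

theorem vert_inj (ρ : I → (Q → Bool)) (γ : J → (Q' → Bool)) : Function.Injective (vert ρ γ) := by
  intro b b' h
  rw [← blk_vert ρ γ b, h, blk_vert]

theorem mem_map_edgeSet {W : Type} (G : SimpleGraph W) (ι : W ↪ Ω) (x y : W) :
    s(ι x, ι y) ∈ (G.map ι).edgeSet ↔ G.Adj x y := by
  show (G.map ι).Adj (ι x) (ι y) ↔ _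
  exact SimpleGraph.map_adj_apply

/-- star edges in the large graph -/
theorem st_mem (π : J × Q' → I × Q) (ρ : I → (Q → Bool)) (γ : J → (Q' → Bool)) (ι : W I J Q Q' u ↪ Ω)
    (x : (I × (Q → Bool)) ⊕ (J × (Q' → Bool))) :
    st ι x ∈ ((G3 π ρ γ).map ι).edgeSet ↔ x = vert ρ γ (blk x) := by
  unfold st
  rw [mem_map_edgeSet]
  constructor
  · intro h
    exact h.2.1 x rfl rfl
  · intro h
    refine ⟨⟨by simp, ?_, ?_⟩, ?_, ?_⟩
    · intro i a j b h1 _
      exact absurd h1 (by simp)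
    · intro i a j b _ h1
      exact absurd h1 (by simp)
    · intro w _ h2
      rw [← Sum.inl.inj h2]
      exact h
    · intro w h1 _
      exact absurd h1 (by simp)

theorem G3_le (π : J × Q' → I × Q) (ρ : I → (Q → Bool)) (γ : J → (Q' → Bool)) :
    G3 (u := u) π ρ γ ≤ G0 π := by
  intro x y h
  exact h.1

/-- the edges of the gadget which are not star edges are in the large graph -/
theorem mem_G3_of_not_star (π : J × Q' → I × Q) (ρ : I → (Q → Bool)) (γ : J → (Q' → Bool))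
    (ι : W I J Q Q' u ↪ Ω) (e : Sym2 Ω) (he : e ∈ ((G0 π).map ι).edgeSet) (hst : ¬ ∃ x, e = st ι x) :
    e ∈ ((G3 π ρ γ).map ι).edgeSet := by
  induction e using Sym2.ind with
  | _ v w =>
    have h1 : ((G0 π).map ι).Adj v w := he
    rw [SimpleGraph.map_adj] at h1
    obtain ⟨x, y, hxy, rfl, rfl⟩ := h1
    rw [mem_map_edgeSet]
    refine ⟨hxy, ?_, ?_⟩
    · intro w h1 h2
      refine absurd ⟨w, ?_⟩ hst
      unfold st
      rw [h1, h2]
    · intro w h1 h2
      refine absurd ⟨w, ?_⟩ hst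
      unfold st
      rw [h1, h2, Sym2.eq_swap]

open Classical in
/-- the substitution -/
noncomputable def subs {K Y : Type} [Field K] (π : J × Q' → I × Q) (ι : W I J Q Q' u ↪ Ω) (c : Sym2 Ω ⊕ Y → K) :
    Sym2 Ω ⊕ Y → MvPolynomial ((I × (Q → Bool)) ⊕ (J × (Q' → Bool))) K :=
  Sum.elim (fun e => if h : ∃ x, e = st ι x then X h.choose else
      if e ∈ ((G0 π).map ι).edgeSet then C (c (Sum.inl e)) else 0) (fun y => C (c (Sum.inr y)))

theorem subs_st {K Y : Type} [Field K] (π : J × Q' → I × Q) (ι : W I J Q Q' u ↪ Ω) (c : Sym2 Ω ⊕ Y → K)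
    (x : (I × (Q → Bool)) ⊕ (J × (Q' → Bool))) : subs π ι c (Sum.inl (st ι x)) = X x := by
  classical
  have h : ∃ y, st ι x = st ι y := ⟨x, rfl⟩
  have h1 : h.choose = x := (st_inj ι h.choose_spec).symm
  unfold subs
  rw [Sum.elim_inl, dif_pos h, h1]

theorem subs_const {K Y : Type} [Field K] (π : J × Q' → I × Q) (ι : W I J Q Q' u ↪ Ω) (c : Sym2 Ω ⊕ Y → K)
    (e : Sym2 Ω) (h : ¬ ∃ x, e = st ι x) (h2 : e ∈ ((G0 π).map ι).edgeSet) :
    subs π ι c (Sum.inl e) = C (c (Sum.inl e)) := by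
  unfold subs
  rw [Sum.elim_inl, dif_neg h, if_pos h2]

theorem subs_zero {K Y : Type} [Field K] (π : J × Q' → I × Q) (ι : W I J Q Q' u ↪ Ω) (c : Sym2 Ω ⊕ Y → K)
    (e : Sym2 Ω) (h : ¬ ∃ x, e = st ι x) (h2 : e ∉ ((G0 π).map ι).edgeSet) :
    subs π ι c (Sum.inl e) = 0 := by
  unfold subs
  rw [Sum.elim_inl, dif_neg h, if_neg h2]

theorem subs_inr {K Y : Type} [Field K] (π : J × Q' → I × Q) (ι : W I J Q Q' u ↪ Ω) (c : Sym2 Ω ⊕ Y → K)
    (y : Y) : subs π ι c (Sum.inr y) = C (c (Sum.inr y)) := rfl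

end gadget

section main

variable {K : Type} [Field K] {Ω Y : Type} {I J Q Q' : Type}
  [Fintype I] [DecidableEq I] [Fintype J] [DecidableEq J] [Fintype Q] [DecidableEq Q] [Fintype Q'] [DecidableEq Q']
  {u : ℕ}

/-- the allowed variables -/
def allowed (Y : Type) (π : J × Q' → I × Q) (ι : W I J Q Q' u ↪ Ω) (ρ : I → (Q → Bool)) (γ : J → (Q' → Bool)) :
    Set (Sym2 Ω ⊕ Y) :=
  {e | ∀ e', e = Sum.inl e' → e' ∈ ((G3 π ρ γ).map ι).edgeSet}

/-- the star edges of the transversal -/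
def evs (Y : Type) (ι : W I J Q Q' u ↪ Ω) (ρ : I → (Q → Bool)) (γ : J → (Q' → Bool)) (b : I ⊕ J) : Sym2 Ω ⊕ Y :=
  Sum.inl (st ι (vert ρ γ b))

theorem evs_inj (ι : W I J Q Q' u ↪ Ω) (ρ : I → (Q → Bool)) (γ : J → (Q' → Bool)) :
    Function.Injective (evs Y ι ρ γ) := by
  intro b b' h
  exact vert_inj ρ γ (st_inj ι (Sum.inl.inj h))

theorem ph_X (ρ : I → (Q → Bool)) (γ : J → (Q' → Bool)) (x : (I × (Q → Bool)) ⊕ (J × (Q' → Bool))) :
    ph (F := K) ρ γ (X x) = open Classical in if x = vert ρ γ (blk x) then X (blk x) else 0 := by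
  classical
  unfold ph
  rw [aeval_X]
  rcases x with ⟨i, a⟩ | ⟨j, b⟩
  · simp only [Sum.elim_inl, Sum.map_inl, Sum.inl.injEq, Prod.mk.injEq, true_and]
  · simp only [Sum.elim_inr, Sum.map_inr, Sum.inr.injEq, Prod.mk.injEq, true_and]

/-- the entries of the matrix -/
theorem cmp_subs (π : J × Q' → I × Q) (ι : W I J Q Q' u ↪ Ω) (c : Sym2 Ω ⊕ Y → K) (f : MvPolynomial (Sym2 Ω ⊕ Y) K)
    (ρ : I → (Q → Bool)) (γ : J → (Q' → Bool)) :
    cmp (aeval (subs π ι c) f) (univ : Finset (I ⊕ J)) ρ γ * ∏ b, c (evs Y ι ρ γ b) =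
      eval c (sel (allowed Y π ι ρ γ) (evs Y ι ρ γ) f) := by
  classical
  have h0 : cmp (aeval (subs π ι c) f) (univ : Finset (I ⊕ J)) ρ γ =
      coeff (sq univ) (aeval (fun e => ph ρ γ (subs π ι c e)) f) := by
    unfold cmp
    rw [Matrix.of_apply]
    congr 1
    have h1 : (ph (F := K) ρ γ).comp (aeval (subs π ι c)) = aeval (fun e => ph ρ γ (subs π ι c e)) := by
      rw [comp_aeval]
    exact DFunLike.congr_fun h1 f
  rw [h0]
  refine coeff_aeval_sel _ _ (evs_inj ι ρ γ) c _ ?_ ?_ ?_ ?_ f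
  · intro b
    unfold evs
    rw [subs_st, ph_X, if_pos (by rw [blk_vert]), blk_vert]
  · intro b e' he'
    rw [← Sum.inl.inj he', st_mem, blk_vert]
  · rintro (e | y) he hne
    · have he1 := he e rfl
      have h2 : ¬ ∃ x, e = st ι x := by
        rintro ⟨x, rfl⟩
        rw [st_mem] at he1
        refine hne (blk x) ?_
        unfold evs
        rw [← he1]
      have h3 : e ∈ ((G0 π).map ι).edgeSet :=
        SimpleGraph.edgeSet_mono (SimpleGraph.map_monotone ι (G3_le π ρ γ)) he1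
      rw [subs_const π ι c e h2 h3]
      exact AlgHom.commutes _ _
    · rw [subs_inr]
      exact AlgHom.commutes _ _
  · rintro (e | y) he
    · have he1 : e ∉ ((G3 π ρ γ).map ι).edgeSet := by
        intro h
        exact he fun e' he' => by rw [← Sum.inl.inj he']; exact h
      by_cases h2 : ∃ x, e = st ι x
      · obtain ⟨x, rfl⟩ := h2
        rw [st_mem] at he1
        rw [subs_st, ph_X, if_neg he1]
      · have h3 : e ∉ ((G0 π).map ι).edgeSet := fun h => he1 (mem_G3_of_not_star π ρ γ ι e h h2)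
        rw [subs_zero π ι c e h2 h3, map_zero]
    · exact absurd (fun e' he' => absurd he' (by simp)) he

/-- the consistent entries -/
theorem exists_sel (π : J × Q' → I × Q) (ι : W I J Q Q' u ↪ Ω) (k : ℕ)
    (hk : k = Fintype.card I + Fintype.card J + 1 + u) (f : MvPolynomial (Sym2 Ω ⊕ Y) K) (hm : Multilin f)
    (hf : Detects k f) (ρ : I → (Q → Bool)) :
    sel (allowed Y π ι ρ (gam π ρ)) (evs Y ι ρ (gam π ρ)) f ≠ 0 := by
  classical
  set γ := gam π ρ with hγ
  set τ : (I ⊕ J) ⊕ Option (Fin u) ↪ Ω := (⟨trv ρ γ, trv_inj ρ γ⟩ : _ ↪ W I J Q Q' u).trans ι with hτ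
  set G1 : SimpleGraph Ω := (⊤ : SimpleGraph ((I ⊕ J) ⊕ Option (Fin u))).map τ with hG1
  have hcard : (univ : Finset ((I ⊕ J) ⊕ Option (Fin u))).card = k := by
    rw [card_univ, Fintype.card_sum, Fintype.card_sum, Fintype.card_option, Fintype.card_fin, hk]
    ring
  have h1 : restr G1 f ≠ 0 := by
    rw [hf G1]
    refine ⟨univ.map τ, ?_⟩
    refine SimpleGraph.IsNClique.map ?_
    rw [SimpleGraph.isNClique_iff]
    exact ⟨fun _ _ _ _ h => h, hcard⟩
  obtain ⟨s, hs, hsG⟩ := (restr_ne_zero G1 f).1 h1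
  have h13 : G1 ≤ (G3 π ρ γ).map ι := by
    intro v w hvw
    rw [hG1, SimpleGraph.map_adj] at hvw
    obtain ⟨g, g', hg, rfl, rfl⟩ := hvw
    rw [hτ]
    exact SimpleGraph.map_adj_apply.2 (trv_adj π ρ hg)
  have h2 : Sel (allowed Y π ι ρ γ) (evs Y ι ρ γ) s := by
    refine ⟨fun b => ?_, ?_⟩
    · have h3 := hm s hs (st ι (vert ρ γ b))
      by_contra hne
      have h4 : s (Sum.inl (st ι (vert ρ γ b))) = 0 := by
        unfold evs at hne
        omega
      have h5 : restr (G1.deleteEdges {st ι (vert ρ γ b)}) f ≠ 0 := by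
        rw [restr_ne_zero]
        refine ⟨s, hs, fun e he => ?_⟩
        rw [SimpleGraph.edgeSet_deleteEdges]
        refine ⟨hsG e he, ?_⟩
        rintro rfl
        exact he h4
      obtain ⟨C, hC⟩ := (hf _).1 h5
      have h6 : G1.IsNClique k C := hC.mono (SimpleGraph.deleteEdges_le _)
      have hk2 : 1 < k := by
        have : 0 < Fintype.card I + Fintype.card J := by
          rcases b with b | b
          · have := Fintype.card_pos_iff.2 ⟨b⟩
            omega
          · have := Fintype.card_pos_iff.2 ⟨b⟩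
            omega
        omega
      rw [hG1, SimpleGraph.isNClique_map_iff hk2] at h6
      obtain ⟨D, hD, rfl⟩ := h6
      have h7 : D = univ := by
        apply Finset.eq_univ_of_card
        rw [hD.card_eq, ← hcard, card_univ]
      subst h7
      have h8 := hC.isClique (x := τ (Sum.inr none)) (Finset.mem_coe.2 (mem_map_of_mem τ (mem_univ _)))
        (y := τ (Sum.inl b)) (Finset.mem_coe.2 (mem_map_of_mem τ (mem_univ _)))
        (fun h => by simpa using τ.injective h)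
      rw [SimpleGraph.deleteEdges_adj] at h8
      exact h8.2 rfl
    · rintro e he e' rfl
      exact SimpleGraph.edgeSet_mono h13 (hsG e' he)
  intro h0
  have h3 := coeff_sel (allowed Y π ι ρ γ) (evs Y ι ρ γ) f s
  rw [h0, coeff_zero, if_pos h2] at h3
  exact hs h3.symm

/-- the inconsistent entries -/
theorem sel_eq_zero (π : J × Q' → I × Q) (ι : W I J Q Q' u ↪ Ω) (k : ℕ)
    (hk : k = Fintype.card I + Fintype.card J + 1 + u) (f : MvPolynomial (Sym2 Ω ⊕ Y) K)
    (hf : Detects k f) (ρ : I → (Q → Bool)) (γ : J → (Q' → Bool)) (hne : γ ≠ gam π ρ) :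
    sel (allowed Y π ι ρ γ) (evs Y ι ρ γ) f = 0 := by
  classical
  ext s
  rw [coeff_sel, coeff_zero]
  split_ifs with h
  · by_contra hs
    have h1 : restr ((G3 π ρ γ).map ι) f ≠ 0 := by
      rw [restr_ne_zero]
      exact ⟨s, hs, fun e he => h.2 _ he e rfl⟩
    obtain ⟨C, hC⟩ := (hf _).1 h1
    have hJ : 0 < Fintype.card J := by
      rw [Fintype.card_pos_iff]
      by_contra hJ
      rw [not_nonempty_iff] at hJ
      exact hne (funext fun j => hJ.elim j)
    rw [SimpleGraph.isNClique_map_iff (by omega)] at hC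
    obtain ⟨D, hD, _⟩ := hC
    rw [hk] at hD
    exact hne (eq_gam_of_clique π ρ γ D hD)
  · rfl

/-- **The gadget.** -/
theorem gadget [Infinite K] [Fintype Ω] [DecidableEq Ω] (π : J × Q' → I × Q) (u k : ℕ)
    (hk : k = Fintype.card I + Fintype.card J + 1 + u)
    (hn : Fintype.card I * 2 ^ Fintype.card Q + Fintype.card J * 2 ^ Fintype.card Q' + 1 + u ≤ Fintype.card Ω)
    (f : MvPolynomial (Sym2 Ω ⊕ Y) K) (hm : Multilin f) (hf : Detects k f) :
    ∃ φ : Sym2 Ω ⊕ Y → MvPolynomial ((I × (Q → Bool)) ⊕ (J × (Q' → Bool))) K,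
      (∀ e, φ e = 0 ∨ (∃ c, φ e = C c) ∨ ∃ x, φ e = X x) ∧
      ∀ ρ γ, cmp (aeval φ f) (Finset.univ : Finset (I ⊕ J)) ρ γ ≠ 0 ↔ γ = gam π ρ := by
  classical
  obtain ⟨ι⟩ : Nonempty (W I J Q Q' u ↪ Ω) := by
    apply Function.Embedding.nonempty_of_card_le
    rw [Fintype.card_sum, Fintype.card_sum, Fintype.card_option, Fintype.card_fin, Fintype.card_prod,
      Fintype.card_prod, Fintype.card_fun, Fintype.card_fun, Fintype.card_bool]
    omega
  obtain ⟨c, hc⟩ : ∃ c : Sym2 Ω ⊕ Y → K, eval c ((∏ x, X (Sum.inl (st ι x))) * ∏ ρ : I → (Q → Bool),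
      sel (allowed Y π ι ρ (gam π ρ)) (evs Y ι ρ (gam π ρ)) f) ≠ 0 := by
    by_contra hcon
    push Not at hcon
    have h1 : ((∏ x, X (Sum.inl (st ι x))) * ∏ ρ : I → (Q → Bool),
        sel (allowed Y π ι ρ (gam π ρ)) (evs Y ι ρ (gam π ρ)) f) = 0 :=
      MvPolynomial.funext fun c => by rw [hcon c, map_zero]
    rcases mul_eq_zero.1 h1 with h1 | h1
    · rw [Finset.prod_eq_zero_iff] at h1
      obtain ⟨x, _, h2⟩ := h1
      exact X_ne_zero _ h2
    · rw [Finset.prod_eq_zero_iff] at h1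
      obtain ⟨ρ, _, h2⟩ := h1
      exact exists_sel π ι k hk f hm hf ρ h2
  rw [map_mul, map_prod, map_prod] at hc
  have hc1 : ∀ x, c (Sum.inl (st ι x)) ≠ 0 := by
    intro x
    have := Finset.prod_ne_zero_iff.1 (left_ne_zero_of_mul hc) x (mem_univ _)
    rwa [eval_X] at this
  have hc2 : ∀ ρ : I → (Q → Bool), eval c (sel (allowed Y π ι ρ (gam π ρ)) (evs Y ι ρ (gam π ρ)) f) ≠ 0 :=
    fun ρ => Finset.prod_ne_zero_iff.1 (right_ne_zero_of_mul hc) ρ (mem_univ _)
  refine ⟨subs π ι c, ?_, ?_⟩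
  · rintro (e | y)
    · by_cases h : ∃ x, e = st ι x
      · obtain ⟨x, rfl⟩ := h
        exact Or.inr (Or.inr ⟨x, subs_st π ι c x⟩)
      · by_cases h2 : e ∈ ((G0 π).map ι).edgeSet
        · exact Or.inr (Or.inl ⟨_, subs_const π ι c e h h2⟩)
        · exact Or.inl (subs_zero π ι c e h h2)
    · exact Or.inr (Or.inl ⟨_, subs_inr π ι c y⟩)
  · intro ρ γ
    have h1 := cmp_subs π ι c f ρ γ
    have h2 : (∏ b, c (evs Y ι ρ γ b)) ≠ 0 := Finset.prod_ne_zero_iff.2 fun b _ => hc1 _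
    constructor
    · intro h
      by_contra hne
      rw [sel_eq_zero π ι k hk f hf ρ γ hne, map_zero] at h1
      exact (mul_ne_zero h h2) h1
    · rintro rfl h
      rw [h, zero_mul] at h1
      exact hc2 ρ h1.symm

end main

end CDep
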