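import Pool.Agent.Helper20.CDG.Sel

/-!
# The graphs of the gadget
-/

set_option autoImplicit false
set_option linter.unusedSectionVars false

namespace CDep
open Finset

section graph

variable {I J Q Q' : Type} [Fintype I] [DecidableEq I] [Fintype J] [DecidableEq J] {u : ℕ}

/-- the vertices of the gadget -/
abbrev W (I J Q Q' : Type) (u : ℕ) : Type := ((I × (Q → Bool)) ⊕ (J × (Q' → Bool))) ⊕ Option (Fin u)

/-- the group of a vertex -/
abbrev blk : (I × (Q → Bool)) ⊕ (J × (Q' → Bool)) → I ⊕ J := Sum.map Prod.fst Prod.fst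

/-- the group of a vertex -/
abbrev grp : W I J Q Q' u → (I ⊕ J) ⊕ Option (Fin u) := Sum.map blk id

/-- the chosen vertex of a group -/
abbrev vert (ρ : I → (Q → Bool)) (γ : J → (Q' → Bool)) : I ⊕ J → (I × (Q → Bool)) ⊕ (J × (Q' → Bool)) :=
  Sum.map (fun i => (i, ρ i)) (fun j => (j, γ j))

theorem blk_vert (ρ : I → (Q → Bool)) (γ : J → (Q' → Bool)) (b : I ⊕ J) : blk (vert ρ γ b) = b := by
  rcases b with b | b <;> rfl

/-- consistency -/
def Con (π : J × Q' → I × Q) (x y : W I J Q Q' u) : Prop :=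
  ∀ i a j b, x = Sum.inl (Sum.inl (i, a)) → y = Sum.inl (Sum.inr (j, b)) →
    ∀ q', (π (j, q')).1 = i → a (π (j, q')).2 = b q'

/-- the edges of the central vertex -/
def Star (ρ : I → (Q → Bool)) (γ : J → (Q' → Bool)) (x y : W I J Q Q' u) : Prop :=
  ∀ w, x = Sum.inr none → y = Sum.inl w → w = vert ρ γ (blk w)

/-- the gadget -/
def G0 (π : J × Q' → I × Q) : SimpleGraph (W I J Q Q' u) where
  Adj x y := grp x ≠ grp y ∧ Con π x y ∧ Con π y x
  symm := ⟨fun _ _ h => ⟨h.1.symm, h.2.2, h.2.1⟩⟩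
  loopless := ⟨fun _ h => h.1 rfl⟩

/-- the gadget with fewer edges at the central vertex -/
def G3 (π : J × Q' → I × Q) (ρ : I → (Q → Bool)) (γ : J → (Q' → Bool)) : SimpleGraph (W I J Q Q' u) where
  Adj x y := (grp x ≠ grp y ∧ Con π x y ∧ Con π y x) ∧ Star ρ γ x y ∧ Star ρ γ y x
  symm := ⟨fun _ _ h => ⟨⟨h.1.1.symm, h.1.2.2, h.1.2.1⟩, h.2.2, h.2.1⟩⟩
  loopless := ⟨fun _ h => h.1.1 rfl⟩

/-- the transversal -/
def trv (ρ : I → (Q → Bool)) (γ : J → (Q' → Bool)) : (I ⊕ J) ⊕ Option (Fin u) → W I J Q Q' u :=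
  Sum.map (vert ρ γ) id

theorem grp_trv (ρ : I → (Q → Bool)) (γ : J → (Q' → Bool)) (g : (I ⊕ J) ⊕ Option (Fin u)) :
    grp (trv ρ γ g) = g := by
  rcases g with (g | g) | g <;> rfl

theorem trv_inj (ρ : I → (Q → Bool)) (γ : J → (Q' → Bool)) :
    Function.Injective (trv (u := u) ρ γ) := by
  intro g g' h
  rw [← grp_trv ρ γ g, h, grp_trv]

/-- the transversal is a clique when it is consistent -/
theorem trv_adj (π : J × Q' → I × Q) (ρ : I → (Q → Bool)) {g g' : (I ⊕ J) ⊕ Option (Fin u)} (h : g ≠ g') :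
    (G3 π ρ (gam π ρ)).Adj (trv ρ (gam π ρ) g) (trv ρ (gam π ρ) g') := by
  have hcon : ∀ g g' : (I ⊕ J) ⊕ Option (Fin u), Con π (trv ρ (gam π ρ) g) (trv ρ (gam π ρ) g') := by
    intro g g' i a j b h1 h2 q' h3
    rcases g with (g | g) | g
    · rcases g' with (g' | g') | g'
      · simp [trv] at h2
      · simp only [trv, Sum.map_inl, Sum.map_inr, Sum.inl.injEq, Sum.inr.injEq, Prod.mk.injEq] at h1 h2
        obtain ⟨rfl, rfl⟩ := h1
        obtain ⟨rfl, rfl⟩ := h2
        unfold gam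
        rw [h3]
      · simp [trv] at h2
    · simp [trv] at h1
    · simp [trv] at h1
  have hst : ∀ g g' : (I ⊕ J) ⊕ Option (Fin u), Star ρ (gam π ρ) (trv ρ (gam π ρ) g) (trv ρ (gam π ρ) g') := by
    intro g g' w _ h2
    rcases g' with g' | g'
    · simp only [trv, Sum.map_inl, Sum.inl.injEq] at h2
      rw [← h2, blk_vert]
    · simp [trv] at h2
  refine ⟨⟨?_, hcon _ _, hcon _ _⟩, hst _ _, hst _ _⟩
  rw [grp_trv, grp_trv]
  exact h

/-- a clique of the gadget with few star edges forces the consistency -/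
theorem eq_gam_of_clique (π : J × Q' → I × Q) (ρ : I → (Q → Bool)) (γ : J → (Q' → Bool)) (D : Finset (W I J Q Q' u))
    (hD : (G3 π ρ γ).IsNClique (Fintype.card I + Fintype.card J + 1 + u) D) : γ = gam π ρ := by
  classical
  have hinj : Set.InjOn (grp (I := I) (J := J) (Q := Q) (Q' := Q') (u := u)) D := by
    intro x hx y hy hxy
    by_contra hne
    exact (hD.isClique hx hy hne).1.1 hxy
  have himg : D.image grp = univ := by
    apply Finset.eq_univ_of_card
    rw [card_image_of_injOn hinj, hD.card_eq, Fintype.card_sum, Fintype.card_sum, Fintype.card_option,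
      Fintype.card_fin]
    ring
  have hz : (Sum.inr none : W I J Q Q' u) ∈ D := by
    have h1 : (Sum.inr none : (I ⊕ J) ⊕ Option (Fin u)) ∈ D.image grp := by rw [himg]; exact mem_univ _
    obtain ⟨x, hx, h2⟩ := mem_image.1 h1
    rcases x with x | x
    · simp at h2
    · simp only [Sum.map_inr, id_eq, Sum.inr.injEq] at h2
      rw [← h2]
      exact hx
  have hv : ∀ b : I ⊕ J, (Sum.inl (vert ρ γ b) : W I J Q Q' u) ∈ D := by
    intro b
    have h1 : (Sum.inl b : (I ⊕ J) ⊕ Option (Fin u)) ∈ D.image grp := by rw [himg]; exact mem_univ _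
    obtain ⟨x, hx, h2⟩ := mem_image.1 h1
    rcases x with x | x
    · simp only [Sum.map_inl, Sum.inl.injEq] at h2
      have h3 := (hD.isClique (Finset.mem_coe.2 hz) (Finset.mem_coe.2 hx) (by simp)).2.1 x rfl rfl
      have h4 : blk x = b := h2
      rw [h4] at h3
      rw [← h3]
      exact hx
    · simp at h2
  funext j q'
  have h1 := hD.isClique (Finset.mem_coe.2 (hv (Sum.inl (π (j, q')).1))) (Finset.mem_coe.2 (hv (Sum.inr j))) (by simp)
  have h2 := h1.1.2.1 _ _ _ _ rfl rfl q' rfl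
  unfold gam
  exact h2.symm

end graph

end CDep
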