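import Pool.Agent.Helper74.CD.Cmp

/-!
# Coefficient extraction and restrictions to graphs
-/

set_option autoImplicit false
set_option linter.unusedSectionVars false

namespace CDep
open Finset MvPolynomial

section abstractSel

variable {σ B K : Type} [Fintype B] [DecidableEq B] [Field K]

/-- the monomials supported on `A` containing every variable `ev b` exactly once -/
def Sel (A : Set σ) (ev : B → σ) (s : σ →₀ ℕ) : Prop := (∀ b, s (ev b) = 1) ∧ ∀ e, s e ≠ 0 → e ∈ A

open Classical in
/-- the part of `f` with these monomials -/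
noncomputable def sel (A : Set σ) (ev : B → σ) (f : MvPolynomial σ K) : MvPolynomial σ K :=
  ∑ s ∈ f.support.filter (Sel A ev), monomial s (coeff s f)

open Classical in
theorem coeff_sel (A : Set σ) (ev : B → σ) (f : MvPolynomial σ K) (s : σ →₀ ℕ) :
    coeff s (sel A ev f) = if Sel A ev s then coeff s f else 0 := by
  unfold sel
  rw [coeff_sum]
  simp only [coeff_monomial]
  rw [Finset.sum_ite_eq']
  by_cases h : Sel A ev s
  · rw [if_pos h]
    by_cases h2 : coeff s f = 0
    · rw [h2, ite_self]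
    · rw [if_pos (Finset.mem_filter.2 ⟨mem_support_iff.2 h2, h⟩)]
  · rw [if_neg h, if_neg (fun h2 => h (Finset.mem_filter.1 h2).2)]

open Classical in
theorem term_sel (A : Set σ) (ev : B → σ) (hev : Function.Injective ev) (c : σ → K) (ψ : σ → MvPolynomial B K)
    (h1 : ∀ b, ψ (ev b) = X b) (hA : ∀ b, ev b ∈ A) (h2 : ∀ e ∈ A, (∀ b, ev b ≠ e) → ψ e = C (c e))
    (h3 : ∀ e, e ∉ A → ψ e = 0) (s : σ →₀ ℕ) (a : K) :
    coeff (sq univ) (aeval ψ (monomial s a)) * ∏ b, c (ev b) = if Sel A ev s then eval c (monomial s a) else 0 := by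
  rw [aeval_monomial]
  by_cases hs : ∀ e, s e ≠ 0 → e ∈ A
  swap
  · rw [if_neg (fun h => hs h.2)]
    push Not at hs
    obtain ⟨e, he, heA⟩ := hs
    have h4 : (s.prod fun e n => ψ e ^ n) = 0 := by
      refine Finset.prod_eq_zero (Finsupp.mem_support_iff.2 he) ?_
      dsimp only
      rw [h3 e heA, zero_pow he]
    rw [h4, mul_zero, coeff_zero, zero_mul]
  set E : Finset σ := univ.image ev with hE
  set R := s.support \ E with hR
  have hU : s.support ∪ E = E ∪ R := by
    rw [hR, union_sdiff_self_eq_union, union_comm]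
  have hdis : Disjoint E R := disjoint_sdiff
  have split : ∀ {M : Type} [CommMonoid M] (g : σ → ℕ → M) (_ : ∀ e, g e 0 = 1),
      s.prod g = (∏ b, g (ev b) (s (ev b))) * ∏ e ∈ R, g e (s e) := by
    intro M _ g hg
    rw [Finsupp.prod_of_support_subset s (s := s.support ∪ E) subset_union_left g (fun e _ => hg e), hU,
      prod_union hdis, hE, prod_image (fun x _ y _ h => hev h)]
  have hψ : (s.prod fun e n => ψ e ^ n) = (∏ b, (X b : MvPolynomial B K) ^ s (ev b)) * C (∏ e ∈ R, c e ^ s e) := by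
    rw [split (fun e n => ψ e ^ n) (fun e => pow_zero _), map_prod]
    congr 1
    · exact prod_congr rfl fun b _ => by rw [h1 b]
    · refine prod_congr rfl fun e he => ?_
      rw [hR, mem_sdiff, hE, Finsupp.mem_support_iff] at he
      rw [h2 e (hs e he.1) (fun b hb => he.2 (mem_image.2 ⟨b, mem_univ _, hb⟩)), C_pow]
  have hmon : (∏ b, (X b : MvPolynomial B K) ^ s (ev b)) =
      monomial (Finsupp.equivFunOnFinite.symm fun b => s (ev b)) 1 := by
    rw [monomial_eq, C_1, one_mul, Finsupp.prod_fintype _ _ (fun b => pow_zero _)]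
    rfl
  have heval : eval c (monomial s a) = a * ((∏ b, c (ev b) ^ s (ev b)) * ∏ e ∈ R, c e ^ s e) := by
    rw [eval_monomial, split (fun e n => c e ^ n) (fun e => pow_zero _)]
  have hiff : (Finsupp.equivFunOnFinite.symm fun b => s (ev b)) = sq (univ : Finset B) ↔ ∀ b, s (ev b) = 1 := by
    rw [Finsupp.ext_iff]
    refine forall_congr' fun b => ?_
    rw [sq_apply, if_pos (mem_univ b)]
    rfl
  rw [hψ, hmon, algebraMap_eq, coeff_C_mul, mul_comm (monomial _ _), coeff_C_mul, coeff_monomial, heval]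
  by_cases h : ∀ b, s (ev b) = 1
  · have h5 : (∏ b, c (ev b) ^ s (ev b)) = ∏ b, c (ev b) := prod_congr rfl fun b _ => by rw [h b, pow_one]
    rw [if_pos (hiff.2 h), if_pos ⟨h, hs⟩, h5]
    ring
  · rw [if_neg (fun h2 => h (hiff.1 h2)), if_neg (fun h2 => h h2.1)]
    ring

/-- **Extraction of a coefficient.** -/
theorem coeff_aeval_sel (A : Set σ) (ev : B → σ) (hev : Function.Injective ev) (c : σ → K)
    (ψ : σ → MvPolynomial B K) (h1 : ∀ b, ψ (ev b) = X b) (hA : ∀ b, ev b ∈ A)
    (h2 : ∀ e ∈ A, (∀ b, ev b ≠ e) → ψ e = C (c e)) (h3 : ∀ e, e ∉ A → ψ e = 0) (f : MvPolynomial σ K) :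
    coeff (sq univ) (aeval ψ f) * ∏ b, c (ev b) = eval c (sel A ev f) := by
  classical
  conv_lhs => rw [f.as_sum]
  rw [map_sum, coeff_sum, Finset.sum_mul, sum_congr rfl fun s _ => term_sel A ev hev c ψ h1 hA h2 h3 s _]
  unfold sel
  rw [map_sum, sum_filter]

end abstractSel

section restrictions

variable {Ω Y F : Type} [Field F]

open Classical in
theorem restr_monomial (G : SimpleGraph Ω) (t : Sym2 Ω ⊕ Y →₀ ℕ) (a : F) :
    restr G (monomial t a) = if ∀ e, t (Sum.inl e) ≠ 0 → e ∈ G.edgeSet then monomial t a else 0 := by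
  unfold restr
  rw [aeval_monomial]
  split_ifs with h
  · have h1 : (t.prod fun e n => (Sum.elim (fun e => if e ∈ G.edgeSet then X (Sum.inl e) else 0) (fun y => X (Sum.inr y)) e :
        MvPolynomial (Sym2 Ω ⊕ Y) F) ^ n) = t.prod fun e n => (X e : MvPolynomial (Sym2 Ω ⊕ Y) F) ^ n := by
      refine Finsupp.prod_congr fun e he => ?_
      rcases e with e | y
      · rw [Sum.elim_inl, if_pos (h e (Finsupp.mem_support_iff.1 he))]
      · rw [Sum.elim_inr]
    rw [h1, monomial_eq, algebraMap_eq]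
  · push Not at h
    obtain ⟨e, he, hG⟩ := h
    have h1 : (t.prod fun e n => (Sum.elim (fun e => if e ∈ G.edgeSet then X (Sum.inl e) else 0) (fun y => X (Sum.inr y)) e :
        MvPolynomial (Sym2 Ω ⊕ Y) F) ^ n) = 0 := by
      refine Finset.prod_eq_zero (Finsupp.mem_support_iff.2 he) ?_
      dsimp only
      rw [Sum.elim_inl, if_neg hG, zero_pow he]
    rw [h1, mul_zero]

open Classical in
theorem coeff_restr (G : SimpleGraph Ω) (f : MvPolynomial (Sym2 Ω ⊕ Y) F) (s : Sym2 Ω ⊕ Y →₀ ℕ) :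
    coeff s (restr G f) = if ∀ e, s (Sum.inl e) ≠ 0 → e ∈ G.edgeSet then coeff s f else 0 := by
  conv_lhs => rw [f.as_sum, map_sum]
  rw [coeff_sum]
  simp only [restr_monomial]
  rw [Finset.sum_eq_single s]
  · split_ifs with h
    · rw [coeff_monomial, if_pos rfl]
    · rw [coeff_zero]
  · intro t _ hts
    split_ifs with h
    · rw [coeff_monomial, if_neg hts]
    · rw [coeff_zero]
  · intro hs
    rw [notMem_support_iff.1 hs]
    split_ifs <;> simp

theorem restr_ne_zero (G : SimpleGraph Ω) (f : MvPolynomial (Sym2 Ω ⊕ Y) F) :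
    restr G f ≠ 0 ↔ ∃ s, coeff s f ≠ 0 ∧ ∀ e, s (Sum.inl e) ≠ 0 → e ∈ G.edgeSet := by
  classical
  rw [ne_zero_iff]
  refine exists_congr fun s => ?_
  rw [coeff_restr]
  constructor
  · intro h
    split_ifs at h with h2
    · exact ⟨h, h2⟩
    · exact absurd rfl h
  · rintro ⟨h, h2⟩
    rw [if_pos h2]
    exact h

end restrictions

end CDep
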